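import Mathlib

open MeasureTheory Filter Topology Finset

namespace Pool.Agent.H.MP_432bca_pr

variable {n : ℕ}

def A (j : Fin (n + 1)) : Finset (Fin (n + 1)) :=
  if j = Fin.last n then ∅ else insert (Fin.last n) (Iio j)

lemma A_succ (j : Fin (n + 1)) : j ∉ A j ∧
    (insert j (A j) = A (j + 1) ∨ insert j (A j) = univ ∧ A (j + 1) = ∅) := by
  have h := Fin.val_add_one j
  have := j.2
  have k : ∀ i j : Fin (n + 1), i ∈ A j ↔ j.1 ≠ n ∧ (i.1 = n ∨ i.1 < j.1) := fun i j => by
    unfold A; split_ifs with c <;> simp_all [Fin.ext_iff]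
  simp only [Finset.ext_iff, mem_insert, k, mem_univ, notMem_empty, Fin.ext_iff, Fin.val_last] at h ⊢
  refine ⟨by omega, ?_⟩
  by_cases e : (j + 1).1 = n
  · exact .inr ⟨fun i => by have := i.2; split_ifs at h <;> simp only [iff_true] <;> omega,
      fun i => by simp [e]⟩
  · exact .inl fun i => by have := i.2; split_ifs at h <;> omega

lemma cyc {p : Fin (n + 1) → Prop} (h : ∀ j, p (j + 1) → p j) {i} (hi : p i) (j) : p j := by
  have h0 : p 0 := by
    induction i using Fin.induction with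
    | zero => exact hi
    | succ i ih => exact ih (h _ (Fin.coeSucc_eq_succ ▸ hi))
  induction j using Fin.reverseInduction with
  | last => exact h _ (by simpa using h0)
  | cast j ih => exact h _ (Fin.coeSucc_eq_succ ▸ ih)

lemma bd {g : Fin (n + 1) → ℤ → ℝ} {c η M : ℝ} (hc : ∀ j k, 0 ≤ k → g j k ≤ c) (hη : 0 < η)
    (h : ∀ T, (∀ j k, 0 ≤ k → g j k ≤ T) → ∀ j k, 0 ≤ k → g j k ≤ max (T - η) M) :
    ∀ j k, 0 ≤ k → g j k ≤ M := by
  have : ∀ N : ℕ, ∀ j k, 0 ≤ k → g j k ≤ max (c - N * η) M := fun N => by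
    induction N with
    | zero => exact fun j k l => le_max_of_le_left (by simpa using hc j k l)
    | succ N ih =>
      refine fun j k l => (h _ ih j k l).trans (max_le ?_ (le_max_right ..))
      rw [← max_sub_sub_right]
      push_cast
      exact max_le_max (by linarith) (by linarith)
  obtain ⟨N, hN⟩ := exists_nat_ge ((c - M) / η)
  rw [div_le_iff₀ hη] at hN
  exact fun j k l => (this N j k l).trans (max_le (by linarith) le_rfl)

variable {μ : Fin (n + 1) → Measure ℤ} [∀ j, IsProbabilityMeasure (μ j)] {m : Fin (n + 1) → ℤ}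
  (hm : ∀ j, IsLeast {x | μ j {x} ≠ 0} (m j)) (hi : ∀ j, Integrable (fun x : ℤ => (x : ℝ)) (μ j))
  (hS : ∑ j, ∫ x, (x : ℝ) ∂μ j < 0)

omit [∀ j, IsProbabilityMeasure (μ j)] in
include hm in
lemma ae_ge (j) : ∀ᵐ x ∂μ j, m j ≤ x :=
  ae_iff.2 ((measure_null_iff_singleton (Set.to_countable _)).2 fun _ h =>
    by_contra fun l => h ((hm j).2 l))

include hS in
lemma pot : ∃ (a : Fin (n + 1) → ℝ) (δ : ℝ), 0 < δ ∧
    ∀ j, a (j + 1) = a j + (∫ x, (x : ℝ) ∂μ j + δ) := by
  let δ := -(∑ j, ∫ x, (x : ℝ) ∂μ j) / (n + 1)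
  refine ⟨fun j => ∑ i ∈ A j, (∫ x, (x : ℝ) ∂μ i + δ), δ, div_pos (by linarith) (by positivity),
    fun j => ?_⟩
  obtain ⟨h, e⟩ := A_succ j
  beta_reduce
  rw [add_comm (∑ i ∈ A j, _), ← sum_insert (f := fun i => ∫ x, (x : ℝ) ∂μ i + δ) h]
  rcases e with e | ⟨e, e'⟩
  · rw [e]
  · rw [e, e', sum_empty]
    simp only [sum_add_distrib, sum_const, card_univ, Fintype.card_fin, δ]
    simp only [nsmul_eq_mul]; push_cast; field_simp; ring

lemma int_max (j) (hi : Integrable (fun x : ℤ => (x : ℝ)) (μ j)) (k : ℤ) :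
    Integrable (fun x : ℤ => ((max (k + x) 0 : ℤ) : ℝ)) (μ j) := by
  push_cast
  exact ((integrable_const (k : ℝ)).add hi).sup (integrable_const 0)

variable {f : Fin (n + 1) → ℤ → ℝ} {B : ℝ} (hb : ∀ j k, 0 ≤ k → |f j k| ≤ B)

include hb in
lemma int_f (j) (k : ℤ) : Integrable (fun x : ℤ => f j (max (k + x) 0)) (μ j) :=
  .of_bound (Measurable.of_discrete).aestronglyMeasurable B
    (.of_forall fun _ => hb _ _ (le_max_right ..))

include hi hS hb in
lemma lin {y : ℝ} (h : ∀ j k, 0 ≤ k → ∫ x, (f j (max (k + x) 0) + y * (max (k + x) 0 : ℤ)) ∂μ j =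
    f (j + 1) k + y * (k + ∫ x, (x : ℝ) ∂μ j)) : y ≤ 0 := by
  by_contra! hy
  obtain ⟨a, δ, hδ, ha⟩ := pot hS
  obtain ⟨C, hC⟩ := (Set.finite_range a).bddBelow
  have := bd (g := fun j k => -(f j k + y * (k + a j))) (c := B - y * C) (fun j k l => by
    have := (abs_le.1 (hb j k l)).1
    have := hC ⟨j, rfl⟩
    have : y * C ≤ y * (k + a j) := by gcongr; linarith [Int.cast_nonneg (R := ℝ) l]
    linarith) (mul_pos hy hδ) (M := -(f 0 0 + y * (0 + a 0)) - 1) (fun T hT j k l => by
    obtain ⟨j, rfl⟩ : ∃ i, j = i + 1 := ⟨j - 1, by simp⟩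
    have := integral_mono (integrable_const (-T - y * a j))
      ((int_f hb j k).add ((int_max j (hi j) k).const_mul y)) fun x => by
        have := hT j _ (le_max_right (k + x) 0)
        simp only [Pi.add_apply]; linarith
    rw [integral_const, probReal_univ, one_smul] at this
    have e := h j k l
    simp only [ha, Pi.add_apply] at this e ⊢
    exact le_max_of_le_left (by linarith)) 0 0 le_rfl
  simp only [Int.cast_zero] at this
  linarith

include hm hi hS hb in
lemma top (hm0 : ∑ j, m j < 0) (hm1 : ∀ j, m j ≤ 0)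
    (h : ∀ j k, 0 ≤ k → ∫ x, f j (max (k + x) 0) ∂μ j = f (j + 1) k) (i j k) (hk : 0 ≤ k) :
    f j k ≤ f i 0 := by
  obtain ⟨a, δ, hδ, ha⟩ := pot hS
  obtain ⟨C, hC⟩ := (Set.finite_range fun j => |a j|).bddAbove
  have hK : ∀ j, ∑ j, m j ≤ m j := fun j => by
    linarith [single_le_sum (f := fun j => -m j) (fun j _ => by linarith [hm1 j]) (mem_univ j),
      sum_neg_distrib (s := univ) m]
  generalize e : ∑ j, m j = D at hm0 hK
  obtain ⟨⟨j0, k0⟩, h0, hM⟩ := exists_max_image (univ ×ˢ Icc 0 (-D)) (fun p => f p.1 p.2)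
    ⟨(0, 0), by simp [hm0.le]⟩
  have key : ∀ j k, 0 ≤ k → f j k ≤ f j0 k0 := fun j k hk => by
    refine le_of_forall_pos_le_add fun η hη => ?_
    obtain ⟨ε, hε, l⟩ : ∃ ε > 0, ε * (k + 2 * C) ≤ η := by
      have : 0 < (k + 2 * C + 1 : ℝ) := by
        have := (abs_nonneg _).trans (hC ⟨0, rfl⟩)
        positivity
      exact ⟨η / (k + 2 * C + 1), by positivity, by rw [div_mul_eq_mul_div, div_le_iff₀ this]; nlinarith⟩
    have b : ∀ j (k : ℤ), 0 ≤ k → f j k - ε * (k + a j) ≤ f j k + ε * C := fun j k l => by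
      have := (abs_le.1 (hC ⟨j, rfl⟩)).1
      have : ε * -C ≤ ε * (k + a j) := by gcongr; linarith [Int.cast_nonneg (R := ℝ) l]
      linarith
    have t := bd (g := fun j k => f j k - ε * (k + a j)) (c := B + ε * C) (fun j k l => by
      linarith [b j k l, (abs_le.1 (hb j k l)).2]) (mul_pos hε hδ) (M := f j0 k0 + ε * C)
      (fun T hT j k l => by
      rcases le_total k (-D) with c | c
      · exact le_max_of_le_right ((b _ _ l).trans (by simpa using hM (j, k) (by simp [c, l])))
      obtain ⟨j, rfl⟩ : ∃ i, j = i + 1 := ⟨j - 1, by simp⟩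
      have := integral_mono_ae (int_f hb j k) ((integrable_const (T + ε * (k + a j))).add
        ((hi j).const_mul ε)) ((ae_ge hm j).mono fun x c' => by
          have c' : 0 ≤ k + x := by linarith [hK j]
          have := hT j _ c'
          simp only [Pi.add_apply, max_eq_left c']
          push_cast at this ⊢
          linarith)
      rw [integral_add' (integrable_const _) ((hi j).const_mul ε), integral_const, probReal_univ,
        one_smul, integral_const_mul, h j k l] at this
      refine le_max_of_le_left ?_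
      simp only [ha]
      linarith) j k hk
    have t3 : ε * ((k : ℝ) + a j) ≤ ε * (k + C) := by gcongr; exact (abs_le.1 (hC ⟨j, rfl⟩)).2
    linarith
  have st : ∀ j k, 0 ≤ k → f (j + 1) k = f j0 k0 → f j (max (k + m j) 0) = f j0 k0 := by
    intro j k hk l
    have := (integral_eq_zero_iff_of_nonneg (fun x => sub_nonneg.2 (key j _ (le_max_right (k + x) 0)))
      ((integrable_const _).sub (int_f (μ := μ) hb j k))).1 (by
        rw [integral_sub (integrable_const _) (int_f hb j k), h j k hk, l, integral_const,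
          probReal_univ, one_smul, sub_self])
    by_contra c
    exact (hm j).1 (measure_mono_null (fun x e => by
      rintro l; exact c (by rw [← show x = m j from e]; exact (sub_eq_zero.1 l).symm)) (ae_iff.1 this))
  have ex : ∃ k : ℕ, ∃ j, f j k = f j0 k0 := ⟨k0.toNat, j0, by
    rw [Int.toNat_of_nonneg (by simpa using (mem_Icc.1 (mem_product.1 h0).2).1)]⟩
  obtain ⟨j1, h1⟩ := Nat.find_spec ex
  have s2 : ∀ j, f (j + 1) (Nat.find ex) = f j0 k0 →
      max (Nat.find ex + m j) 0 = Nat.find ex ∧ f j (Nat.find ex) = f j0 k0 := fun j l => by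
    have l := st j _ (by positivity) l
    have := Nat.find_min' ex (m := (max (Nat.find ex + m j) 0).toNat) ⟨j, by
      rwa [Int.toNat_of_nonneg (le_max_right ..)]⟩
    have e : max (Nat.find ex + m j) 0 = Nat.find ex := by have := hm1 j; omega
    exact ⟨e, e ▸ l⟩
  have s3 := cyc (p := fun j => f j (Nat.find ex) = f j0 k0) (fun j l => (s2 j l).2) h1
  obtain ⟨j2, -, l⟩ := exists_lt_of_sum_lt (f := m) (g := fun _ => 0) (s := univ) (by simpa [e])
  have := (s2 j2 (s3 _)).1
  have z : (Nat.find ex : ℤ) = 0 := by omega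
  exact (key j k hk).trans_eq (z ▸ s3 i).symm

include hm hi hS hb in
lemma const (hm0 : ∑ j, m j < 0) (hm1 : ∀ j, m j ≤ 0) {y : ℝ}
    (h : ∀ j k, 0 ≤ k → ∫ x, (f j (max (k + x) 0) + y * (max (k + x) 0 : ℤ)) ∂μ j =
      f (j + 1) k + y * (k + ∫ x, (x : ℝ) ∂μ j)) : y = 0 ∧ ∀ j k, 0 ≤ k → f j k = f j 0 := by
  have hb' : ∀ j k, 0 ≤ k → |(-f) j k| ≤ B := by simpa using hb
  obtain rfl : y = 0 := (lin hi hS hb h).antisymm (neg_nonpos.1 (lin hi hS hb' fun j k l => by
    have := congrArg Neg.neg (h j k l)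
    rw [← integral_neg] at this
    simpa [add_comm] using this))
  simp only [zero_mul, add_zero] at h
  exact ⟨rfl, fun j k l => (top hm hi hS hb hm0 hm1 h j j k l).antisymm (neg_le_neg_iff.1
    (top hm hi hS hb' hm0 hm1 (fun j k l => by simp [integral_neg, h j k l]) j j k l))⟩

end Pool.Agent.H.MP_432bca_pr
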