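import Mathlib
import Pool.Agent.H.MP_432bca_pr.A

open MeasureTheory ProbabilityTheory Filter Topology Finset

namespace Pool.Agent.H.MP_432bca_pr

def U : Set ℂ := {s | s ≠ 0 ∧ ‖s‖ < 1}

lemma U_open : IsOpen U := isOpen_ne.inter (isOpen_lt continuous_norm continuous_const)

def R : Submodule ℂ (ℂ → ℂ) where
  carrier := {f | DifferentiableOn ℂ f U}
  add_mem' := .add
  zero_mem' := differentiableOn_const 0
  smul_mem' c _ h := h.const_smul c

lemma an {f : ℂ → ℂ} (h : f ∈ R) {s : ℂ} (hs : s ∈ U) : AnalyticAt ℂ f s :=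
  DifferentiableOn.analyticAt h (U_open.mem_nhds hs)

def K (ρ : ℝ) : Set ℂ := {s | ρ ≤ ‖s‖ ∧ ‖s‖ ≤ 1 ∧ ρ ≤ ‖s - 1‖}

def Bd : Submodule ℂ ((ℂ → ℂ) →ₗ[ℂ] ℂ) where
  carrier := {L | ∃ ρ > 0, ∃ C, ∀ f ∈ R, ∀ B, (∀ s ∈ K ρ, ‖f s‖ ≤ B) → ‖L f‖ ≤ C * B}
  add_mem' := by
    rintro L L' ⟨ρ, h, C, k⟩ ⟨ρ', h', C', k'⟩
    refine ⟨min ρ ρ', lt_min h h', C + C', fun f a B b => (norm_add_le _ _).trans ?_⟩
    linarith [k f a B fun s c => b s ⟨min_le_of_left_le c.1, c.2.1, min_le_of_left_le c.2.2⟩,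
      k' f a B fun s c => b s ⟨min_le_of_right_le c.1, c.2.1, min_le_of_right_le c.2.2⟩]
  zero_mem' := ⟨1, one_pos, 0, by simp⟩
  smul_mem' c L := fun ⟨ρ, h, C, k⟩ => ⟨ρ, h, ‖c‖ * C, fun f a B b => by
    rw [LinearMap.smul_apply, norm_smul, mul_assoc]; gcongr; exact k f a B b⟩

lemma one {α : ℂ} {t : ℕ} (h : ‖α‖ ≤ 1) (h0 : α ≠ 0) (h1 : α ≠ 1) (ht : t = 0 ∨ ‖α‖ < 1) :
    ∃ L ∈ Bd, ∀ f ∈ R, L f = iteratedDeriv t f α := by
  rcases ht with rfl | ht
  · exact ⟨LinearMap.proj α, ⟨min ‖α‖ ‖α - 1‖, lt_min (by simpa) (by simpa [sub_eq_zero]), 1,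
      fun f _ B b => by simpa using b α ⟨min_le_left .., h, min_le_right ..⟩⟩, by simp⟩
  obtain ⟨L, hL⟩ := LinearMap.exists_extend (p := R) (V' := ℂ) ⟨⟨fun f => iteratedDeriv t f.1 α,
    fun f g => iteratedDeriv_add (an f.2 ⟨h0, ht⟩).contDiffAt (an g.2 ⟨h0, ht⟩).contDiffAt⟩,
    fun c f => iteratedDeriv_const_mul_field c f.1⟩
  have e : ∀ f ∈ R, L f = iteratedDeriv t f α := fun f a => LinearMap.congr_fun hL ⟨f, a⟩
  obtain ⟨r, r0, r1, r2⟩ : ∃ r > 0, 2 * r ≤ ‖α‖ ∧ 2 * r ≤ 1 - ‖α‖ :=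
    ⟨min ‖α‖ (1 - ‖α‖) / 2, half_pos (lt_min (by simpa) (by linarith)),
      by linarith [min_le_left ‖α‖ (1 - ‖α‖)], by linarith [min_le_right ‖α‖ (1 - ‖α‖)]⟩
  have k : ∀ s ∈ Metric.closedBall α r, r ≤ ‖s‖ ∧ ‖s‖ ≤ 1 - r := fun s a => by
    have := abs_le.1 ((abs_norm_sub_norm_le s α).trans (mem_closedBall_iff_norm.1 a))
    constructor <;> linarith
  refine ⟨L, ⟨r, r0, t.factorial / r ^ t, fun f a B b => ?_⟩, e⟩
  rw [e f a, div_mul_eq_mul_div]
  refine Complex.norm_iteratedDeriv_le_of_forall_mem_sphere_norm_le t r0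
    (DifferentiableOn.diffContOnCl (DifferentiableOn.mono a fun s c => ?_)) fun s c => b s ?_
  · have := k s (Metric.closure_ball_subset_closedBall c)
    exact ⟨norm_pos_iff.1 (by linarith), by linarith⟩
  · have := k s (Metric.sphere_subset_closedBall c)
    have l := norm_sub_norm_le 1 s
    rw [norm_one, norm_sub_rev] at l
    exact ⟨this.1, by linarith, by linarith⟩

lemma hs {E : Type} [NormedAddCommGroup E] [NormedSpace ℝ E] [CompleteSpace E] {μ : Measure ℤ}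
    {f : ℤ → E} (h : Integrable f μ) : HasSum (fun x => μ.real {x} • f x) (∫ x, f x ∂μ) := by
  simpa [Set.iUnion_of_singleton, Measure.real] using hasSum_integral_iUnion (s := fun x => {x}) (fun _ => .singleton _)
    (fun _ _ l => Set.disjoint_singleton.2 l) h.integrableOn

lemma zb {ρ : ℝ} {s : ℂ} {N : ℕ} {i : ℤ} (h0 : 0 < ρ) (h1 : ρ ≤ ‖s‖) (h2 : ‖s‖ ≤ 1) (h : -N ≤ i) :
    ‖s ^ i‖ ≤ (ρ ^ N)⁻¹ := by
  rw [norm_zpow]
  refine (zpow_le_zpow_right_of_le_one₀ (h0.trans_le h1) h2 h).trans ?_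
  rw [zpow_neg, zpow_natCast]
  gcongr

lemma tb {μ : Measure ℤ} {F : ℤ → ℂ} {B : ℝ} (h : ∀ᵐ x ∂μ, ‖F x‖ ≤ B) (x : ℤ) :
    ‖μ.real {x} • F x‖ ≤ μ.real {x} * B := by
  by_cases c : μ {x} = 0
  · simp [Measure.real, c]
  rw [norm_smul, Real.norm_of_nonneg measureReal_nonneg]
  gcongr
  exact by_contra fun l => c (measure_mono_null (by simpa using l) (ae_iff.1 h))

variable {Ω : Type} [MeasurableSpace Ω] (P : Measure Ω)

noncomputable def G (Y : Ω → ℤ) (s : ℂ) : ℂ := ∫ ω, s ^ Y ω ∂P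

lemma G_map {Y : Ω → ℤ} (hY : Measurable Y) (s : ℂ) : G P Y s = ∫ x, s ^ x ∂P.map Y :=
  (integral_map hY.aemeasurable (Measurable.of_discrete).aestronglyMeasurable).symm

variable {P} [IsProbabilityMeasure P]

lemma G_reg {Y : Ω → ℤ} (hY : Measurable Y) {N : ℕ} (h : ∀ᵐ ω ∂P, -N ≤ Y ω) : G P Y ∈ R := by
  have := Measure.isProbabilityMeasure_map (μ := P) hY.aemeasurable
  replace h := (ae_map_iff hY.aemeasurable (p := (-N ≤ ·)) .of_discrete).2 h
  intro α hα
  have h0 : 0 < ‖α‖ / 2 := half_pos (norm_pos_iff.2 hα.1)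
  have o : IsOpen {s : ℂ | ‖α‖ / 2 < ‖s‖ ∧ ‖s‖ < 1} :=
    (isOpen_lt continuous_const continuous_norm).inter (isOpen_lt continuous_norm continuous_const)
  have b : ∀ s ∈ {s : ℂ | ‖α‖ / 2 < ‖s‖ ∧ ‖s‖ < 1}, ∀ᵐ x ∂P.map Y, ‖s ^ x‖ ≤ ((‖α‖ / 2) ^ N)⁻¹ :=
    fun s c => h.mono fun x l => zb h0 c.1.le c.2.le l
  refine (((Complex.differentiableOn_tsum_of_summable_norm
    ((hs (integrable_const (1 : ℝ) (μ := P.map Y))).summable.mul_right _)
    (F := fun x s => (P.map Y).real {x} • s ^ x) (fun x => (differentiableOn_zpow x _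
      (.inl fun l => absurd l.1 (by simpa using h0.le))).const_smul ((P.map Y).real {x})) o fun x s c => by
        simpa using tb (b s c) x).congr fun s c => ?_).differentiableAt
    (o.mem_nhds ⟨by linarith, hα.2⟩)).differentiableWithinAt
  rw [G_map _ hY, (hs (.of_bound (Measurable.of_discrete).aestronglyMeasurable _ (b s c))).tsum_eq]

omit [IsProbabilityMeasure P] in
lemma G_sum {ι : Type} {X : ι → Ω → ℤ} (hX : ∀ j, Measurable (X j)) (hi : iIndepFun X P)
    (S : Finset ι) {s : ℂ} (h : s ≠ 0) : G P (∑ i ∈ S, X i) s = ∏ i ∈ S, G P (X i) s := by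
  have := ((hi.precomp (g := fun i : S => i.1) Subtype.val_injective).comp (fun _ x => s ^ x)
    fun _ => .of_discrete).integral_prod_eq_prod_integral
      fun i => ((Measurable.of_discrete).comp (hX i)).aestronglyMeasurable
  rw [← prod_coe_sort S]
  refine (integral_congr_ae (.of_forall fun ω => ?_)).trans this
  simp only [Finset.prod_apply, Finset.sum_apply, Function.comp]
  rw [prod_coe_sort S fun i => s ^ X i ω]
  clear this
  induction S using Finset.cons_induction with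
  | empty => simp
  | cons a S l ih => rw [sum_cons, prod_cons, zpow_add₀ h, ih]

variable {Λ : (ℂ → ℂ) →ₗ[ℂ] ℂ} {ρ C : ℝ}
  (hΛ : ∀ f ∈ R, ∀ B, (∀ s ∈ K ρ, ‖f s‖ ≤ B) → ‖Λ f‖ ≤ C * B)
include hΛ

lemma cg {f g : ℂ → ℂ} (a : f ∈ R) (b : g ∈ R) (h : ∀ s ∈ K ρ, f s = g s) : Λ f = Λ g := by
  simpa [sub_eq_zero] using hΛ _ (R.sub_mem a b) 0 fun s c => by simp [h s c]

lemma swap {μ : Measure ℤ} [IsProbabilityMeasure μ] {F : ℤ → ℂ → ℂ} (hF : ∀ x, F x ∈ R) {B : ℝ}
    (hB : ∀ᵐ x ∂μ, ∀ s ∈ K ρ, ‖F x s‖ ≤ B) {g : ℂ → ℂ} (hg : g ∈ R)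
    (e : ∀ s ∈ K ρ, g s = ∫ x, F x s ∂μ) : ∫ x, Λ (F x) ∂μ = Λ g := by
  have h1 := hs (integrable_const (1 : ℝ) (μ := μ))
  simp only [smul_eq_mul, mul_one, integral_const, probReal_univ] at h1
  refine (hs (.of_bound (Measurable.of_discrete).aestronglyMeasurable _
    (hB.mono fun x l => hΛ _ (hF x) B l))).unique (tendsto_iff_norm_sub_tendsto_zero.2
      (squeeze_zero (fun _ => norm_nonneg _) (g := fun S => C * (B - ∑ x ∈ S, μ.real {x} * B))
        (fun S => ?_) ?_))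
  · have := hΛ _ (R.sub_mem hg (R.sum_mem (t := S) fun x _ => R.smul_mem (μ.real {x} : ℂ) (hF x))) _
      fun s c => by
        have b := hB.mono fun x l => l s c
        simpa [e s c] using (S.hasSum_iff_compl.1 (hs (.of_bound
          (Measurable.of_discrete).aestronglyMeasurable _ b))).norm_le_of_bounded
            (S.hasSum_iff_compl.1 (h1.mul_right B)) fun x => tb b x
    simpa [norm_sub_rev] using this
  · simpa using ((Tendsto.const_sub B (h1.mul_right B)).const_mul C)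

omit hΛ in
lemma tele (ψ : ℤ → ℂ) {m x : ℤ} (h : m ≤ x) (k : ℕ) :
    ψ (max (k + x) 0) = ψ (k + x) + ∑ r ∈ range ((-m).toNat - k),
      (Set.Iic (m + r)).indicator 1 x * (ψ (m + r + k + 1) - ψ (m + r + k)) := by
  have := sum_range_sub (fun r : ℕ => ψ (max (m + r + k) (k + x))) ((-m).toNat - k)
  rw [sum_congr rfl (g := fun r : ℕ => (Set.Iic (m + r)).indicator 1 x *
    (ψ (m + r + k + 1) - ψ (m + r + k))) fun r _ => ?_] at this
  · rw [this, add_comm (ψ _), show max (m + (0 : ℕ) + k) (k + x) = k + x by omega, sub_add_cancel]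
    congr 1
    omega
  · by_cases c : x ≤ m + r
    · rw [Set.indicator_of_mem (by exact c), Pi.one_apply, one_mul]
      congr 2 <;> omega
    · rw [Set.indicator_of_notMem (by exact c), zero_mul, sub_eq_zero]
      congr 1
      omega

omit hΛ in
lemma zreg (i : ℤ) : (fun s : ℂ => s ^ i) ∈ R := differentiableOn_zpow i _ (.inl fun l => l.1 rfl)

omit hΛ in
lemma ireg : (fun s : ℂ => (s - 1)⁻¹) ∈ R := DifferentiableOn.inv (by fun_prop) fun s c l => by
  have := c.2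
  simp [sub_eq_zero.1 l] at this

variable (P) in
noncomputable def phi {n : ℕ} (X : Fin (n + 1) → Ω → ℤ) (m : Fin (n + 1) → ℤ) (j : Fin (n + 1))
    (c : ℕ) (s : ℂ) : ℂ :=
  s ^ m j * G P (∑ i ∈ A j, X i) s *
    ∑ r ∈ range ((-m j).toNat - c), s ^ (r + c) * P.real {ω | X j ω ≤ m j + r}

variable (P) in
noncomputable def nu {n : ℕ} (X : Fin (n + 1) → Ω → ℤ) (m : Fin (n + 1) → ℤ) (j : Fin (n + 1))
    (c : ℕ) : ℂ := ∑ r ∈ range ((-m j).toNat - c), (P.real {ω | X j ω ≤ m j + r} : ℂ)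

variable {n : ℕ} {X : Fin (n + 1) → Ω → ℤ} {m : Fin (n + 1) → ℤ} (hX : ∀ j, Measurable (X j))
  (hm : ∀ j, IsLeast {x | P {ω | X j ω = x} ≠ 0} (m j)) (hm1 : ∀ j, m j ≤ 0)
include hX hm hm1

omit hΛ hm1 [IsProbabilityMeasure P] in
lemma hm' (j) : IsLeast {x | P.map (X j) {x} ≠ 0} (m j) := by
  simp only [Measure.map_apply (hX j) (measurableSet_singleton _)]
  exact hm j

omit hΛ [IsProbabilityMeasure P] in
lemma low (S : Finset (Fin (n + 1))) : ∀ᵐ ω ∂P, -((-∑ j, m j).toNat : ℤ) ≤ (∑ i ∈ S, X i) ω := by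
  filter_upwards [ae_all_iff.2 fun j => ae_of_ae_map (hX j).aemeasurable (ae_ge (hm' hX hm) j)] with ω h
  have := sum_le_sum_of_subset_of_nonpos' (f := m) (subset_univ S) fun i _ _ => hm1 i
  have := sum_le_sum (s := S) fun j _ => h j
  rw [Finset.sum_apply]
  omega

omit hΛ in
lemma W_reg (S : Finset (Fin (n + 1))) : G P (∑ i ∈ S, X i) ∈ R :=
  G_reg (by fun_prop) (low hX hm hm1 S)

omit hΛ in
lemma phi_reg (j c) : phi P X m j c ∈ R :=
  ((zreg _).mul (W_reg hX hm hm1 _)).mul (by fun_prop)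

theorem core (hρ : 0 < ρ) (ind : iIndepFun X P) (hm0 : ∑ j, m j < 0)
    (hi : ∀ j, Integrable (fun ω => (X j ω : ℝ)) P) (hS : ∫ ω, ∑ j, (X j ω : ℝ) ∂P < 0)
    (hk : ∀ f ∈ R, Λ (f * (G P (∑ j, X j) - 1)) = 0) {y : ℂ}
    (hr : ∀ j c, c < (-m j).toNat → Λ (phi P X m j c) + y * nu P X m j c = 0) :
    y = 0 ∧ ∀ k : ℕ, Λ (· ^ k) = 0 := by
  have := fun j => Measure.isProbabilityMeasure_map (μ := P) (hX j).aemeasurable
  have md : ∀ {E : Type} [NormedAddCommGroup E] [MeasurableSpace E] [BorelSpace E]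
      [SecondCountableTopology E] (f : ℤ → E) (μ : Measure ℤ), AEStronglyMeasurable f μ :=
    fun f μ => (Measurable.of_discrete).aestronglyMeasurable
  have hi' := fun j => (integrable_map_measure (md _ _) (hX j).aemeasurable).2 (hi j)
  replace hS : ∑ j, ∫ x, (x : ℝ) ∂P.map (X j) < 0 := by
    simpa only [integral_map (hX _).aemeasurable (md _ _), ← integral_finsetSum _ fun j _ => hi j]
  let N := (-∑ j, m j).toNat
  have hN : ∀ j, -(N : ℤ) ≤ m j := fun j => by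
    have := sum_le_sum_of_subset_of_nonpos' (f := m) (subset_univ {j}) fun i _ _ => hm1 i
    rw [sum_singleton] at this
    omega
  have wr := W_reg hX hm hm1
  have k0 : ∀ s ∈ K ρ, s ≠ 0 := fun s c => norm_pos_iff.1 (hρ.trans_le c.1)
  let F : Fin (n + 1) → ℤ → ℂ → ℂ := fun j i s => s ^ i * (G P (∑ i ∈ A j, X i) s * (s - 1)⁻¹)
  have fr : ∀ j i, F j i ∈ R := fun j i => (zreg i).mul ((wr _).mul ireg)
  have fb : ∀ j i, -(N : ℤ) ≤ i → ∀ s ∈ K ρ, ‖F j i s‖ ≤ (ρ ^ N)⁻¹ * ((ρ ^ N)⁻¹ * ρ⁻¹) := by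
    intro j i l s c
    simp only [F, norm_mul, norm_inv]
    gcongr
    · exact zb hρ c.1 c.2.1 l
    · simpa [G] using norm_integral_le_of_norm_le_const
        ((low hX hm hm1 (A j)).mono fun ω l => zb hρ c.1 c.2.1 l)
    · exact c.2.2
  have d1 : ∀ j i, Λ (F j (i + 1)) - Λ (F j i) = Λ fun s => s ^ i * G P (∑ i ∈ A j, X i) s := by
    intro j i
    rw [← map_sub]
    refine cg hΛ (R.sub_mem (fr _ _) (fr _ _)) ((zreg i).mul (wr _)) fun s c => ?_
    have : s - 1 ≠ 0 := norm_pos_iff.1 (hρ.trans_le c.2.2)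
    simp only [F, Pi.sub_apply, zpow_add_one₀ (k0 s c)]
    field_simp
  have d2 : ∀ j (k : ℕ), ∫ x, Λ (F j (k + x)) ∂P.map (X j) = Λ (F (j + 1) k) := by
    intro j k
    obtain ⟨a, b⟩ := A_succ j
    rw [swap hΛ (fun _ => fr _ _) ((ae_ge (hm' hX hm) j).mono fun x l => fb j _ (by linarith [hN j]))
      (g := fun s => s ^ (k : ℤ) * (G P (∑ i ∈ insert j (A j), X i) s * (s - 1)⁻¹))
      ((zreg _).mul ((wr _).mul ireg)) fun s c => by
        simp only [F, zpow_add₀ (k0 s c), G_sum hX ind _ (k0 s c), prod_insert a]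
        rw [integral_mul_const, integral_const_mul, ← G_map _ (hX j)]
        ring]
    rcases b with b | ⟨b, b'⟩
    · rw [b]
    rw [← sub_eq_zero, ← map_sub, ← hk _ ((zreg k).mul ireg)]
    congr 1
    ext s
    simp only [F, b, b', sum_empty, G, Pi.zero_apply, zpow_zero, integral_const, probReal_univ,
      one_smul, Pi.sub_apply, Pi.mul_apply, Pi.one_apply]
    ring
  have d3 : ∀ j (k : ℤ), 0 ≤ k → ∫ x, (Λ (F j (max (k + x) 0)) + ((max (k + x) 0 : ℤ) : ℝ) • y)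
      ∂P.map (X j) = Λ (F (j + 1) k) + (k + ∫ x, (x : ℝ) ∂P.map (X j)) • y := by
    intro j k l
    lift k to ℕ using l
    have i1 : Integrable (fun x => Λ (F j (k + x))) (P.map (X j)) := .of_bound (md _ _) _
      ((ae_ge (hm' hX hm) j).mono fun x l => hΛ _ (fr _ _) _ (fb j _ (by linarith [hN j])))
    have i2 : Integrable (fun x : ℤ => ((k + x : ℤ) : ℝ) • y) (P.map (X j)) := by
      simp only [Int.cast_add]
      exact ((integrable_const _).add (hi' j)).smul_const y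
    have i3 : ∀ r : ℕ, Integrable ((Set.Iic (m j + r)).indicator (1 : ℤ → ℂ)) (P.map (X j)) :=
      fun r => (integrable_const _).indicator measurableSet_Iic
    rw [integral_congr_ae ((ae_ge (hm' hX hm) j).mono fun x l =>
      tele (fun i => Λ (F j i) + (i : ℝ) • y) l k), integral_add (by exact i1.add i2)
      (integrable_finsetSum _ fun r _ => (i3 r).mul_const _), integral_add i1 i2,
      integral_finsetSum _ fun r _ => (i3 r).mul_const _, d2, integral_smul_const]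
    simp only [integral_mul_const, Int.cast_add]
    rw [integral_add (integrable_const _) (hi' j), integral_const, probReal_univ, one_smul,
      add_eq_left]
    have e : Λ (phi P X m j k) + y * nu P X m j k = 0 := by
      rcases lt_or_ge k (-m j).toNat with c | c
      · exact hr j k c
      · have : phi P X m j k = 0 := funext fun s => by simp [phi, Nat.sub_eq_zero_of_le c]
        simp [this, nu, Nat.sub_eq_zero_of_le c]
    rw [← e, cg hΛ (phi_reg hX hm hm1 j k) (R.sum_mem (t := range ((-m j).toNat - k)) fun r _ =>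
      R.smul_mem (P.real {ω | X j ω ≤ m j + r} : ℂ) ((zreg (m j + r + k)).mul (wr (A j))))
      fun s c => ?_, map_sum, nu, mul_sum, ← sum_add_distrib]
    · refine sum_congr rfl fun r _ => ?_
      rw [add_sub_add_comm, d1, map_smul, show (1 : ℤ → ℂ) = fun _ => 1 from rfl,
        integral_indicator_const _ measurableSet_Iic,
        map_measureReal_apply (hX j) measurableSet_Iic]
      simp only [Complex.real_smul, smul_eq_mul, Int.cast_one]
      push_cast
      exact (by intros; ring : ∀ a b c d : ℂ, a * 1 * (b + ((c + 1) * d - c * d)) = a * b + d * a)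
        _ _ _ _
    · simp only [phi, Finset.sum_apply, mul_sum, Pi.smul_apply, Pi.mul_apply, smul_eq_mul,
        zpow_add₀ (k0 s c), zpow_natCast]
      exact sum_congr rfl fun r _ => by ring
  have d4 := fun l : ℂ →L[ℝ] ℝ => const (hm' hX hm) hi' hS (f := fun j k => l (Λ (F j k)))
    (fun j k c => (l.le_opNorm_of_le (hΛ _ (fr j k) _ (fb j k (by omega))))) hm0 hm1 (y := l y)
    fun j k c => by
      have := congrArg l (d3 j k c)
      rw [← l.integral_comp_comm (by exact (Integrable.of_bound (md _ _) _ (.of_forall fun x =>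
        hΛ _ (fr _ _) _ (fb j _ (by omega)))).add ((int_max (μ := fun j => P.map (X j)) j (hi' j) k).smul_const y))] at this
      simpa only [map_add, map_smul, smul_eq_mul, mul_comm] using this
  have d5 : ∀ k, 0 ≤ k → Λ (F (Fin.last n) k) = Λ (F (Fin.last n) 0) := fun k c =>
    Complex.ext ((d4 Complex.reCLM).2 _ k c) ((d4 Complex.imCLM).2 _ k c)
  refine ⟨Complex.ext (d4 Complex.reCLM).1 (d4 Complex.imCLM).1, fun k => ?_⟩
  have := d1 (Fin.last n) k
  rw [d5 _ (by omega), d5 k (by omega), sub_self] at this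
  simpa [A, G] using this.symm

omit hΛ hX hm hm1 in
lemma herm {ι : Type} (T : Finset ι) {a : ι → ℂ × ℕ} (ha : Function.Injective a) {y : ι → ℂ}
    (h : ∀ q : Polynomial ℂ, ∑ p ∈ T, y p * iteratedDeriv (a p).2 (fun s => q.eval s) (a p).1 = 0) :
    ∀ p ∈ T, y p = 0 := by
  classical
  by_contra! c
  obtain ⟨p, c, hM⟩ := exists_max_image (T.filter (y · ≠ 0)) (fun p => (a p).2)
    (c.imp fun p l => mem_filter.2 l)
  let Z := (T.image fun p => (a p).1).erase (a p).1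
  let f : ℂ → ℂ := fun s => (s - (a p).1) ^ (a p).2 * ∏ β ∈ Z, (s - β) ^ ((a p).2 + 1)
  have fa : ∀ s, AnalyticAt ℂ f s := fun s => by fun_prop
  have o : analyticOrderAt f (a p).1 = (a p).2 := (fa _).analyticOrderAt_eq_natCast.2
    ⟨fun s => ∏ β ∈ Z, (s - β) ^ ((a p).2 + 1), by fun_prop, prod_ne_zero_iff.2 fun β l =>
      pow_ne_zero _ (sub_ne_zero.2 (ne_of_mem_erase l).symm), .of_forall fun _ => rfl⟩
  have z := (natCast_le_analyticOrderAt_iff_iteratedDeriv_eq_zero (fa _)).1 o.ge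
  have := h ((.X - .C (a p).1) ^ (a p).2 * ∏ β ∈ Z, (.X - .C β) ^ ((a p).2 + 1))
  simp only [Polynomial.eval_mul, Polynomial.eval_pow, Polynomial.eval_sub, Polynomial.eval_X,
    Polynomial.eval_C, Polynomial.eval_prod] at this
  rw [sum_eq_single_of_mem p (mem_filter.1 c).1 fun q l e => ?_,
    mul_eq_zero_iff_left (mem_filter.1 c).2] at this
  · have := (natCast_le_analyticOrderAt_iff_iteratedDeriv_eq_zero (n := (a p).2 + 1) (fa _)).2
      fun i l => (Nat.lt_succ_iff_lt_or_eq.1 l).elim (z i) fun e => e ▸ this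
    rw [o] at this
    norm_cast at this
    omega
  refine mul_eq_zero.2 (or_iff_not_imp_left.2 fun k => ?_)
  have k := hM q (mem_filter.2 ⟨l, k⟩)
  by_cases e1 : (a q).1 = (a p).1
  · rw [e1]
    exact z _ (k.lt_of_ne fun e2 => e (ha (Prod.ext e1 e2)))
  have : (a q).1 ∈ Z := mem_erase.2 ⟨e1, mem_image_of_mem _ l⟩
  exact (natCast_le_analyticOrderAt_iff_iteratedDeriv_eq_zero (fa _)).1
    ((natCast_le_analyticOrderAt (n := (a p).2 + 1) (fa _)).2 ⟨fun s => (s - (a p).1) ^ (a p).2 *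
      ∏ β ∈ Z.erase (a q).1, (s - β) ^ ((a p).2 + 1), by fun_prop, .of_forall fun s => by
        simp only [f, ← mul_prod_erase _ _ this, smul_eq_mul]; ring⟩) _ (by omega)

omit hΛ hX hm hm1 in
abbrev Row (g : ℂ → ℂ) : Type := {p : ℂ × ℕ // ‖p.1‖ ≤ 1 ∧ p.1 ≠ 0 ∧ p.1 ≠ 1 ∧ g p.1 = 0 ∧
  (p.2 = 0 ∨ ‖p.1‖ < 1 ∧ (p.2 : ℕ∞) < analyticOrderAt g p.1)}

omit hΛ in
theorem main (ind : iIndepFun X P) (hm0 : ∑ j, m j < 0)
    (hi : ∀ j, Integrable (fun ω => (X j ω : ℝ)) P) (hS : ∫ ω, ∑ j, (X j ω : ℝ) ∂P < 0) :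
    LinearIndependent ℂ fun (i : Option (Row fun s => G P (∑ j, X j) s - 1))
      (c : Σ j, Fin (-m j).toNat) =>
      i.elim (nu P X m c.1 c.2) fun p => iteratedDeriv p.1.2 (phi P X m c.1 c.2) p.1.1 := by
  classical
  rw [linearIndependent_iff'']
  intro S y h0 h
  choose L hL e using fun p : Row fun s => G P (∑ j, X j) s - 1 =>
    one (t := p.1.2) p.2.1 p.2.2.1 p.2.2.2.1 (p.2.2.2.2.2.imp id (·.1))
  obtain ⟨ρ, hρ, C, hΛ⟩ := Bd.sum_mem (t := S.eraseNone) fun p _ => Bd.smul_mem (y (some p)) (hL p)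
  have gr := W_reg hX hm hm1 univ
  obtain ⟨a, b⟩ := core hΛ hX hm hm1 hρ ind hm0 hi hS (y := y none) (fun f k => by
    simp only [LinearMap.sum_apply, LinearMap.smul_apply]
    refine sum_eq_zero fun p _ => ?_
    rw [e p _ (by exact k.mul (gr.sub (differentiableOn_const 1)))]
    rcases p.2.2.2.2.2 with l | ⟨l, l'⟩
    · simp [l, show G P (∑ j, X j) p.1.1 - 1 = 0 from p.2.2.2.2.1]
    have u : p.1.1 ∈ U := ⟨p.2.2.1, l⟩
    have g : AnalyticAt ℂ (G P (∑ j, X j) - 1) p.1.1 := (an gr u).sub analyticAt_const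
    rw [(natCast_le_analyticOrderAt_iff_iteratedDeriv_eq_zero (n := p.1.2 + 1) ((an k u).mul g)).1
      (by rw [analyticOrderAt_mul (an k u) g]; exact le_add_left (Order.add_one_le_of_lt l')) _
      (by omega), smul_zero]) fun j c l => by
    have := congrFun h ⟨j, c, l⟩
    rw [sum_subset (s₂ := S.eraseNone.insertNone) (by rw [insertNone_eraseNone]; exact subset_insert ..)
      fun i _ l => by rw [h0 i l, zero_smul], sum_insertNone] at this
    simpa [fun p => e p _ (phi_reg hX hm hm1 j c), add_comm] using this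
  have := herm S.eraseNone (a := fun p => p.1) Subtype.val_injective (y := fun p => y (some p))
    fun q => by
      have : (fun s => q.eval s) = ∑ k ∈ range (q.natDegree + 1), q.coeff k • fun s : ℂ => s ^ k :=
        funext fun s => by simp [Polynomial.eval_eq_sum_range]
      have k : (∑ p ∈ S.eraseNone, y (some p) • L p : (ℂ → ℂ) →ₗ[ℂ] ℂ) (fun s => q.eval s) = 0 := by
        rw [this, map_sum, sum_eq_zero fun k _ => by rw [map_smul, b, smul_zero]]
      simpa [fun p => e p _ q.differentiableOn] using k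
  rintro (_ | p)
  · exact a
  · exact by_contra fun l => l (this p (mem_eraseNone.2 (by_contra fun c => l (h0 _ c))))

end Pool.Agent.H.MP_432bca_pr
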